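import Mathlib

/-! One dimensional Wirtinger inequality. -/

open MeasureTheory Metric Set Filter Topology
open scoped ENNReal ContDiff

namespace Pool.Agent.Helper79.FKD

theorem wirt_aux {u : ℝ → ℝ} (hu : ContDiff ℝ 1 u) {a b : ℝ} (hab : a < b) (ha : u a = 0)
    (hb : u b = 0) {c : ℝ} (hc : 0 < c) (hc' : c < Real.pi / (b - a)) :
    c ^ 2 * (∫ x in a..b, u x ^ 2) ≤ ∫ x in a..b, deriv u x ^ 2 := by
  have hba : 0 < b - a := by linarith
  have hcb : c * (b - a) < Real.pi := by rwa [lt_div_iff₀ hba] at hc'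
  set m := (a + b) / 2 with hm
  have hd : ∀ x, HasDerivAt u (deriv u x) x := fun x =>
    (hu.differentiable (by norm_num) x).hasDerivAt
  have huc : Continuous u := hu.continuous
  have hdc : Continuous (deriv u) := hu.continuous_deriv (by norm_num)
  have hcos : ∀ x ∈ Icc a b, 0 < Real.cos (c * (x - m)) := by
    intro x hx
    apply Real.cos_pos_of_mem_Ioo
    constructor
    · have : -(c * (b - a)) / 2 ≤ c * (x - m) := by
        have : 0 ≤ c * (x - a) := mul_nonneg hc.le (by linarith [hx.1])
        rw [hm]; nlinarith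
      linarith
    · have : c * (x - m) ≤ c * (b - a) / 2 := by
        have : 0 ≤ c * (b - x) := mul_nonneg hc.le (by linarith [hx.2])
        rw [hm]; nlinarith
      linarith
  set g : ℝ → ℝ := fun x => -(c * Real.tan (c * (x - m))) with hg
  have hgd : ∀ x ∈ Icc a b, HasDerivAt g (-(c ^ 2) - g x ^ 2) x := by
    intro x hx
    have h1 : HasDerivAt (fun x : ℝ => c * (x - m)) (c * 1) x :=
      ((hasDerivAt_id x).sub_const m).const_mul c
    have h2 := (Real.hasDerivAt_tan (hcos x hx).ne').comp x h1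
    have h3 := (h2.const_mul c).neg
    refine h3.congr_deriv ?_
    rw [hg]
    simp only [Real.tan_eq_sin_div_cos]
    have hne := (hcos x hx).ne'
    have hsc := Real.sin_sq_add_cos_sq (c * (x - m))
    field_simp
    linear_combination hsc
  have hgc : ContinuousOn g (Icc a b) := fun x hx => (hgd x hx).continuousAt.continuousWithinAt
  have hI1 : IntervalIntegrable (fun x => deriv u x ^ 2 - c ^ 2 * u x ^ 2) volume a b :=
    ((hdc.pow 2).sub (continuous_const.mul (huc.pow 2))).intervalIntegrable _ _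
  have huIcc : uIcc a b = Icc a b := uIcc_of_le hab.le
  have hF : ∀ x ∈ uIcc a b, HasDerivAt (fun x => g x * u x ^ 2)
      ((-(c ^ 2) - g x ^ 2) * u x ^ 2 + g x * (2 * u x * deriv u x)) x := by
    intro x hx
    rw [huIcc] at hx
    have h2 : HasDerivAt (fun x => u x ^ 2) (2 * u x * deriv u x) x := by
      have := (hd x).pow 2
      refine this.congr_deriv ?_
      simp
    exact (hgd x hx).mul h2
  have hI2 : IntervalIntegrable (fun x => (-(c ^ 2) - g x ^ 2) * u x ^ 2 +
      g x * (2 * u x * deriv u x)) volume a b := by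
    apply ContinuousOn.intervalIntegrable
    rw [huIcc]
    have h3 : ContinuousOn u (Icc a b) := huc.continuousOn
    have h4 : ContinuousOn (deriv u) (Icc a b) := hdc.continuousOn
    fun_prop
  have key := intervalIntegral.integral_eq_sub_of_hasDerivAt hF hI2
  simp only [ha, hb] at key
  have hmono : (∫ x in a..b, ((-(c ^ 2) - g x ^ 2) * u x ^ 2 + g x * (2 * u x * deriv u x))) ≤
      ∫ x in a..b, (deriv u x ^ 2 - c ^ 2 * u x ^ 2) := by
    apply intervalIntegral.integral_mono_on hab.le hI2 hI1
    intro x _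
    nlinarith [sq_nonneg (deriv u x - g x * u x)]
  rw [key] at hmono
  have hI3 : IntervalIntegrable (fun x => deriv u x ^ 2) volume a b :=
    (hdc.pow 2).intervalIntegrable _ _
  have hI4 : IntervalIntegrable (fun x => c ^ 2 * u x ^ 2) volume a b :=
    (continuous_const.mul (huc.pow 2)).intervalIntegrable _ _
  rw [intervalIntegral.integral_sub hI3 hI4, intervalIntegral.integral_const_mul] at hmono
  have : g b * 0 ^ 2 - g a * 0 ^ 2 = 0 := by ring
  linarith

theorem wirtinger {u : ℝ → ℝ} (hu : ContDiff ℝ 1 u) {a b : ℝ} (hab : a < b) (ha : u a = 0)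
    (hb : u b = 0) :
    (Real.pi / (b - a)) ^ 2 * (∫ x in a..b, u x ^ 2) ≤ ∫ x in a..b, deriv u x ^ 2 := by
  have hpos : 0 < Real.pi / (b - a) := div_pos Real.pi_pos (by linarith)
  have hcl : Real.pi / (b - a) ∈ closure (Ioo 0 (Real.pi / (b - a))) := by
    rw [closure_Ioo hpos.ne]
    exact ⟨hpos.le, le_rfl⟩
  refine ContinuousWithinAt.closure_le (s := Ioo 0 (Real.pi / (b - a)))
    (f := fun c => c ^ 2 * (∫ x in a..b, u x ^ 2))
    (g := fun _ => ∫ x in a..b, deriv u x ^ 2) hcl ?_ ?_ ?_
  · exact (by fun_prop : Continuous fun c : ℝ => c ^ 2 * (∫ x in a..b, u x ^ 2)).continuousWithinAt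
  · exact continuousWithinAt_const
  · intro c hc
    exact wirt_aux hu hab ha hb hc.1 hc.2

end Pool.Agent.Helper79.FKD
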