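import Mathlib

/-! Test functions on `(-1,1)` close to `cos (π t / 2)`. -/

open MeasureTheory Metric Set Filter Topology
open scoped ENNReal ContDiff

namespace Pool.Agent.Helper79.FKD

noncomputable def psq (z : ℝ) : ℝ := (max 0 z) ^ 2

lemma psq_eq (z : ℝ) : psq z = ∫ t in (0:ℝ)..z, 2 * max 0 t := by
  unfold psq
  rcases le_total 0 z with hz | hz
  · rw [max_eq_right hz]
    have : ∫ t in (0:ℝ)..z, 2 * max 0 t = ∫ t in (0:ℝ)..z, 2 * t := by
      apply intervalIntegral.integral_congr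
      intro t ht
      rw [uIcc_of_le hz] at ht
      simp only
      rw [max_eq_right ht.1]
    rw [this, intervalIntegral.integral_const_mul, integral_id]
    ring
  · rw [max_eq_left hz]
    have : ∫ t in (0:ℝ)..z, 2 * max 0 t = ∫ t in (0:ℝ)..z, (0:ℝ) := by
      apply intervalIntegral.integral_congr
      intro t ht
      rw [uIcc_of_ge hz] at ht
      simp only
      rw [max_eq_left ht.2]
      ring
    rw [this]
    simp

lemma hasDerivAt_psq (z : ℝ) : HasDerivAt psq (2 * max 0 z) z := by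
  have : psq = fun z => ∫ t in (0:ℝ)..z, 2 * max 0 t := funext psq_eq
  rw [this]
  have hc : Continuous fun t : ℝ => 2 * max 0 t := by fun_prop
  exact intervalIntegral.integral_hasDerivAt_right (hc.intervalIntegrable _ _)
    hc.stronglyMeasurable.stronglyMeasurableAtFilter hc.continuousAt

lemma contDiff_psq : ContDiff ℝ 1 psq := by
  rw [contDiff_one_iff_deriv]
  refine ⟨fun z => (hasDerivAt_psq z).differentiableAt, ?_⟩
  have : deriv psq = fun z => 2 * max 0 z := funext fun z => (hasDerivAt_psq z).deriv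
  rw [this]
  fun_prop

lemma psq_zero {z : ℝ} (hz : z ≤ 0) : psq z = 0 := by
  rw [psq, max_eq_left hz]; ring

noncomputable def cc (t : ℝ) : ℝ := Real.cos (Real.pi / 2 * t)

lemma cc_pos {t : ℝ} (ht : |t| < 1) : 0 < cc t := by
  rw [abs_lt] at ht
  apply Real.cos_pos_of_mem_Ioo
  constructor <;> nlinarith [Real.pi_pos, ht.1, ht.2]

lemma cc_one {t : ℝ} (ht : |t| = 1) : cc t = 0 := by
  rcases (abs_eq (by norm_num)).1 ht with h | h
  · rw [cc, h, mul_one, Real.cos_pi_div_two]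
  · rw [cc, h, mul_neg, mul_one, Real.cos_neg, Real.cos_pi_div_two]

lemma cc_cont : Continuous cc := by unfold cc; fun_prop

lemma cc_hd (t : ℝ) : HasDerivAt cc (-(Real.pi / 2) * Real.sin (Real.pi / 2 * t)) t := by
  have h1 : HasDerivAt (fun t : ℝ => Real.pi / 2 * t) (Real.pi / 2 * 1) t :=
    (hasDerivAt_id t).const_mul _
  refine (h1.cos).congr_deriv ?_
  ring

lemma cc_cd : ContDiff ℝ 1 cc := by
  unfold cc
  fun_prop

noncomputable def vv (δ t : ℝ) : ℝ := if |t| < 1 then psq (cc t - δ) / cc t else 0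

lemma vv_zero {δ t : ℝ} (hd : 0 < δ) (ht : 1 ≤ |t|) : vv δ =ᶠ[𝓝 t] fun _ => 0 := by
  rcases ht.eq_or_lt with h | h
  · have h1 : ∀ᶠ s in 𝓝 t, cc s < δ := by
      apply cc_cont.continuousAt.eventually_lt_const
      rw [cc_one h.symm]; exact hd
    filter_upwards [h1] with s hs
    unfold vv
    split_ifs
    · rw [psq_zero (by linarith), zero_div]
    · rfl
  · have h1 : ∀ᶠ s in 𝓝 t, 1 < |s| := continuous_abs.continuousAt.eventually_const_lt h
    filter_upwards [h1] with s hs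
    unfold vv
    rw [if_neg (not_lt.2 hs.le)]

lemma vv_eq {δ t : ℝ} (ht : |t| < 1) : vv δ =ᶠ[𝓝 t] fun t => psq (cc t - δ) / cc t := by
  have h1 : ∀ᶠ s in 𝓝 t, |s| < 1 := continuous_abs.continuousAt.eventually_lt_const ht
  filter_upwards [h1] with s hs
  unfold vv
  rw [if_pos hs]

lemma vv_cd {δ : ℝ} (hd : 0 < δ) : ContDiff ℝ 1 (vv δ) := by
  rw [contDiff_iff_contDiffAt]
  intro t
  rcases lt_or_ge |t| 1 with h | h
  · refine ContDiffAt.congr_of_eventuallyEq ?_ (vv_eq h)
    refine ContDiffAt.div ?_ cc_cd.contDiffAt (cc_pos h).ne'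
    exact (contDiff_psq.comp (cc_cd.sub contDiff_const)).contDiffAt
  · exact contDiffAt_const.congr_of_eventuallyEq (vv_zero hd h)

lemma vv_supp {δ : ℝ} : tsupport (vv δ) ⊆ Icc (-1) 1 ∩ {t | δ ≤ cc t} := by
  apply closure_minimal
  · intro t ht
    rw [Function.mem_support] at ht
    unfold vv at ht
    split_ifs at ht with h
    · rw [abs_lt] at h
      refine ⟨⟨h.1.le, h.2.le⟩, ?_⟩
      by_contra h2
      rw [mem_ofPred_eq, not_le] at h2
      exact ht (by rw [psq_zero (by linarith), zero_div])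
    · exact absurd rfl ht
  · exact isClosed_Icc.inter (isClosed_le continuous_const cc_cont)

lemma vv_cpt {δ : ℝ} : HasCompactSupport (vv δ) :=
  isCompact_Icc.of_isClosed_subset (isClosed_tsupport _)
    ((vv_supp).trans inter_subset_left)

lemma vv_supp' {δ : ℝ} (hd : 0 < δ) : tsupport (vv δ) ⊆ Ioo (-1) 1 := by
  intro t ht
  obtain ⟨⟨h1, h2⟩, h3⟩ := vv_supp ht
  have h3 : δ ≤ cc t := h3
  refine ⟨lt_of_le_of_ne h1 ?_, lt_of_le_of_ne h2 ?_⟩
  · rintro rfl
    rw [cc_one (by norm_num)] at h3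
    linarith
  · rintro rfl
    rw [cc_one (by norm_num)] at h3
    linarith

lemma vv_deriv_zero {δ t : ℝ} (hd : 0 < δ) (ht : 1 ≤ |t|) : deriv (vv δ) t = 0 := by
  rw [(vv_zero hd ht).deriv_eq]; simp

lemma vv_deriv {δ t : ℝ} (hd : 0 < δ) (ht : |t| < 1) :
    deriv (vv δ) t ^ 2 ≤ (Real.pi / 2) ^ 2 * Real.sin (Real.pi / 2 * t) ^ 2 := by
  have hc := cc_pos ht
  have h1 : HasDerivAt (fun t => psq (cc t - δ)) (2 * max 0 (cc t - δ) *
      (-(Real.pi / 2) * Real.sin (Real.pi / 2 * t))) t :=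
    (hasDerivAt_psq _).comp t ((cc_hd t).sub_const δ)
  have h2 := (h1.div (cc_hd t) hc.ne').congr_of_eventuallyEq (vv_eq ht)
  rw [h2.deriv]
  rcases le_total (cc t - δ) 0 with h | h
  · rw [psq_zero h, max_eq_left h]
    have : 0 ≤ (Real.pi / 2) ^ 2 * Real.sin (Real.pi / 2 * t) ^ 2 := by positivity
    simpa using this
  · rw [psq, max_eq_right h]
    set s := Real.sin (Real.pi / 2 * t)
    set C := cc t
    have h3 : (2 * (C - δ) * (-(Real.pi / 2) * s) * C - (C - δ) ^ 2 * (-(Real.pi / 2) * s)) / C ^ 2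
        = (-(Real.pi / 2) * s) * (1 - (δ / C) ^ 2) := by
      field_simp
      ring
    rw [h3, mul_pow]
    have h4 : 0 ≤ δ / C := by positivity
    have h5 : δ / C ≤ 1 := by rw [div_le_one hc]; linarith
    have h6 : 0 ≤ 1 - (δ / C) ^ 2 := by nlinarith
    have h7 : (1 - (δ / C) ^ 2) ^ 2 ≤ 1 := by nlinarith [sq_nonneg (δ / C)]
    have h8 : (-(Real.pi / 2) * s) ^ 2 = (Real.pi / 2) ^ 2 * s ^ 2 := by ring
    rw [h8]
    exact mul_le_of_le_one_right (by positivity) h7

lemma vv_lower {δ t : ℝ} (hd : 0 < δ) (ht : |t| < 1) :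
    cc t ^ 2 - 4 * δ ≤ vv δ t ^ 2 := by
  have hc := cc_pos ht
  have hc1 : cc t ≤ 1 := Real.cos_le_one _
  have h0 : cc t ^ 2 - 4 * δ ≤ cc t ^ 2 - 4 * δ * cc t := by nlinarith
  refine h0.trans ?_
  rw [vv, if_pos ht]
  rcases le_total (cc t) (2 * δ) with h | h
  · have : 0 ≤ (psq (cc t - δ) / cc t) ^ 2 := sq_nonneg _
    nlinarith
  · have h1 : psq (cc t - δ) / cc t = cc t - 2 * δ + δ ^ 2 / cc t := by
      rw [psq, max_eq_right (by linarith)]
      field_simp
      ring
    have h2 : cc t - 2 * δ ≤ psq (cc t - δ) / cc t := by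
      rw [h1]
      have : 0 ≤ δ ^ 2 / cc t := by positivity
      linarith
    have h3 : (cc t - 2 * δ) ^ 2 ≤ (psq (cc t - δ) / cc t) ^ 2 :=
      pow_le_pow_left₀ (by linarith) h2 2
    nlinarith [sq_nonneg δ]

lemma int_sin : ∫ t in (-1:ℝ)..1, Real.sin (Real.pi / 2 * t) ^ 2 = 1 := by
  have hF : ∀ t ∈ uIcc (-1:ℝ) 1, HasDerivAt (fun t => t / 2 - Real.sin (Real.pi * t) / (2 * Real.pi))
      (Real.sin (Real.pi / 2 * t) ^ 2) t := by
    intro t _
    have h1 : HasDerivAt (fun t : ℝ => Real.pi * t) (Real.pi * 1) t :=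
      (hasDerivAt_id t).const_mul _
    have h2 := ((hasDerivAt_id t).div_const 2).sub (h1.sin.div_const (2 * Real.pi))
    refine h2.congr_deriv ?_
    have h3 : Real.cos (Real.pi * t) = 1 - 2 * Real.sin (Real.pi / 2 * t) ^ 2 := by
      rw [show Real.pi * t = 2 * (Real.pi / 2 * t) by ring, Real.cos_two_mul, Real.cos_sq']
      ring
    rw [h3]
    field_simp
    ring
  rw [intervalIntegral.integral_eq_sub_of_hasDerivAt hF
    ((by fun_prop : Continuous fun t : ℝ => Real.sin (Real.pi / 2 * t) ^ 2).intervalIntegrable _ _)]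
  rw [mul_one, mul_neg, mul_one, Real.sin_neg, Real.sin_pi]
  norm_num

lemma int_cos : ∫ t in (-1:ℝ)..1, cc t ^ 2 = 1 := by
  have h : ∀ t : ℝ, cc t ^ 2 = 1 - Real.sin (Real.pi / 2 * t) ^ 2 := fun t => Real.cos_sq' _
  simp only [h]
  rw [intervalIntegral.integral_sub (by simp)
    ((by fun_prop : Continuous fun t : ℝ => Real.sin (Real.pi / 2 * t) ^ 2).intervalIntegrable _ _),
    int_sin]
  rw [intervalIntegral.integral_const, smul_eq_mul]
  norm_num

theorem vv_dir {δ : ℝ} (hd : 0 < δ) : ∫ t, deriv (vv δ) t ^ 2 ≤ (Real.pi / 2) ^ 2 := by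
  have hdc : Continuous (deriv (vv δ)) := (vv_cd hd).continuous_deriv (by norm_num)
  have e2 : ∫ x, deriv (vv δ) x ^ 2 = ∫ x in (-1:ℝ)..1, deriv (vv δ) x ^ 2 := by
    rw [← setIntegral_eq_integral_of_forall_compl_eq_zero (s := Ioc (-1:ℝ) 1) (fun x hx => ?_)]
    · rw [intervalIntegral.integral_of_le (by norm_num)]
    · have : 1 ≤ |x| := by
        by_contra h
        rw [not_le, abs_lt] at h
        exact hx ⟨h.1, h.2.le⟩
      rw [vv_deriv_zero hd this]; simp
  rw [e2]
  have h3 : ∫ t in (-1:ℝ)..1, (Real.pi / 2) ^ 2 * Real.sin (Real.pi / 2 * t) ^ 2 =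
      (Real.pi / 2) ^ 2 := by
    rw [intervalIntegral.integral_const_mul, int_sin, mul_one]
  rw [← h3]
  apply intervalIntegral.integral_mono_on (by norm_num)
  · exact (hdc.pow 2).intervalIntegrable _ _
  · exact (by fun_prop : Continuous fun t : ℝ =>
      (Real.pi / 2) ^ 2 * Real.sin (Real.pi / 2 * t) ^ 2).intervalIntegrable _ _
  · intro t ht
    rcases lt_or_ge |t| 1 with h | h
    · exact vv_deriv hd h
    · rw [vv_deriv_zero hd h]
      have : 0 ≤ (Real.pi / 2) ^ 2 * Real.sin (Real.pi / 2 * t) ^ 2 := by positivity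
      simpa using this

theorem vv_int {δ : ℝ} (hd : 0 < δ) : 1 - 8 * δ ≤ ∫ t, vv δ t ^ 2 := by
  have hvc : Continuous (vv δ) := (vv_cd hd).continuous
  have e1 : ∫ x, vv δ x ^ 2 = ∫ x in (-1:ℝ)..1, vv δ x ^ 2 := by
    rw [← setIntegral_eq_integral_of_forall_compl_eq_zero (s := Ioc (-1:ℝ) 1) (fun x hx => ?_)]
    · rw [intervalIntegral.integral_of_le (by norm_num)]
    · have : 1 ≤ |x| := by
        by_contra h
        rw [not_le, abs_lt] at h
        exact hx ⟨h.1, h.2.le⟩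
      rw [vv, if_neg (not_lt.2 this)]; simp
  rw [e1]
  have h3 : ∫ t in (-1:ℝ)..1, (cc t ^ 2 - 4 * δ) = 1 - 8 * δ := by
    have hi : IntervalIntegrable (fun t => cc t ^ 2) volume (-1) 1 :=
      (cc_cont.pow 2).intervalIntegrable _ _
    rw [intervalIntegral.integral_sub hi intervalIntegrable_const, int_cos,
      intervalIntegral.integral_const, smul_eq_mul]
    ring
  rw [← h3]
  apply intervalIntegral.integral_mono_on (by norm_num)
  · exact ((cc_cont.pow 2).sub continuous_const).intervalIntegrable _ _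
  · exact (hvc.pow 2).intervalIntegrable _ _
  · intro t ht
    rcases lt_or_ge |t| 1 with h | h
    · exact vv_lower hd h
    · have h1 : |t| = 1 := le_antisymm (abs_le.2 ht) h
      rw [vv, if_neg (not_lt.2 h), cc_one h1]
      nlinarith

end Pool.Agent.Helper79.FKD
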