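import Pool.Agent.Helper79.FKD.Wirt

/-! Components of open subsets of the line, and the Wirtinger inequality on them. -/

open MeasureTheory Metric Set Filter Topology
open scoped ENNReal ContDiff

namespace Pool.Agent.Helper79.FKD

theorem exists_comp {O : Set ℝ} (ho : IsOpen O) (hf : volume O < ⊤) {x : ℝ} (hx : x ∈ O) :
    ∃ p : ℝ × ℝ, p.1 < x ∧ x < p.2 ∧ Ioo p.1 p.2 ⊆ O ∧ p.1 ∉ O ∧ p.2 ∉ O := by
  have hcl : IsClosed Oᶜ := ho.isClosed_compl
  have hne1 : (Oᶜ ∩ Ici x).Nonempty := by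
    by_contra h
    rw [not_nonempty_iff_eq_empty] at h
    have : Ici x ⊆ O := by
      intro y hy
      by_contra hyO
      have : y ∈ Oᶜ ∩ Ici x := ⟨hyO, hy⟩
      rw [h] at this
      exact this
    have h2 := measure_mono (μ := volume) this
    rw [Real.volume_Ici] at h2
    exact (not_top_lt (h2.trans_lt hf))
  have hne2 : (Oᶜ ∩ Iic x).Nonempty := by
    by_contra h
    rw [not_nonempty_iff_eq_empty] at h
    have : Iic x ⊆ O := by
      intro y hy
      by_contra hyO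
      have : y ∈ Oᶜ ∩ Iic x := ⟨hyO, hy⟩
      rw [h] at this
      exact this
    have h2 := measure_mono (μ := volume) this
    rw [Real.volume_Iic] at h2
    exact (not_top_lt (h2.trans_lt hf))
  have hb1 : BddBelow (Oᶜ ∩ Ici x) := ⟨x, fun y hy => hy.2⟩
  have hb2 : BddAbove (Oᶜ ∩ Iic x) := ⟨x, fun y hy => hy.2⟩
  have hB := (hcl.inter isClosed_Ici).csInf_mem hne1 hb1
  have hA := (hcl.inter isClosed_Iic).csSup_mem hne2 hb2
  have hAx : sSup (Oᶜ ∩ Iic x) < x := lt_of_le_of_ne hA.2 (fun h => hA.1 (by rw [h]; exact hx))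
  have hBx : x < sInf (Oᶜ ∩ Ici x) := lt_of_le_of_ne hB.2 (fun h => hB.1 (by rw [← h]; exact hx))
  refine ⟨(sSup (Oᶜ ∩ Iic x), sInf (Oᶜ ∩ Ici x)), hAx, hBx, ?_, hA.1, hB.1⟩
  intro y hy
  by_contra hyO
  rcases le_total x y with h | h
  · exact absurd (csInf_le hb1 ⟨hyO, h⟩) (not_le.2 hy.2)
  · exact absurd (le_csSup hb2 ⟨hyO, h⟩) (not_le.2 hy.1)

theorem comp_unique {O : Set ℝ} {p q : ℝ × ℝ} {y : ℝ} (hp : Ioo p.1 p.2 ⊆ O) (hq : Ioo q.1 q.2 ⊆ O)
    (hp1 : p.1 ∉ O) (hp2 : p.2 ∉ O) (hq1 : q.1 ∉ O) (hq2 : q.2 ∉ O) (hyp : y ∈ Ioo p.1 p.2)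
    (hyq : y ∈ Ioo q.1 q.2) : p = q := by
  have h1 : p.1 = q.1 := by
    rcases lt_trichotomy p.1 q.1 with h | h | h
    · exact absurd (hp ⟨h, hyq.1.trans hyp.2⟩) hq1
    · exact h
    · exact absurd (hq ⟨h, hyp.1.trans hyq.2⟩) hp1
  have h2 : p.2 = q.2 := by
    rcases lt_trichotomy p.2 q.2 with h | h | h
    · exact absurd (hq ⟨hyq.1.trans hyp.2, h⟩) hp2
    · exact h
    · exact absurd (hp ⟨hyp.1.trans hyq.2, h⟩) hq2
  exact Prod.ext h1 h2

/-- Wirtinger inequality on open subsets of the line whose components are short -/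
theorem wirt_open {O : Set ℝ} (ho : IsOpen O) (hf : volume O < ⊤) {l : ℝ} (hl : 0 < l)
    (hO : ∀ a b : ℝ, Ioo a b ⊆ O → a < b → b - a ≤ l) {v : ℝ → ℝ} (hv : ContDiff ℝ 1 v)
    (hc : HasCompactSupport v) (hs : tsupport v ⊆ O) :
    (Real.pi / l) ^ 2 * (∫ x, v x ^ 2) ≤ ∫ x, deriv v x ^ 2 := by
  classical
  have hex : ∀ x : ℝ, ∃ p : ℝ × ℝ, x ∈ O → p.1 < x ∧ x < p.2 ∧ Ioo p.1 p.2 ⊆ O ∧ p.1 ∉ O ∧
      p.2 ∉ O := by
    intro x
    by_cases hx : x ∈ O
    · obtain ⟨p, hp⟩ := exists_comp ho hf hx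
      exact ⟨p, fun _ => hp⟩
    · exact ⟨(0, 0), fun h => absurd h hx⟩
  choose p hp using hex
  obtain ⟨t, ht, hcov⟩ := hc.isCompact.elim_nhds_subcover (fun x => Ioo (p x).1 (p x).2)
    (fun x hx => Ioo_mem_nhds (hp x (hs hx)).1 (hp x (hs hx)).2.1)
  set T : Finset (ℝ × ℝ) := t.image p with hT
  have hTp : ∀ q ∈ T, q.1 < q.2 ∧ Ioo q.1 q.2 ⊆ O ∧ q.1 ∉ O ∧ q.2 ∉ O := by
    intro q hq
    rw [hT, Finset.mem_image] at hq
    obtain ⟨x, hx, rfl⟩ := hq
    have := hp x (hs (ht x hx))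
    exact ⟨this.1.trans this.2.1, this.2.2⟩
  have hcov' : tsupport v ⊆ ⋃ q ∈ T, Ioo q.1 q.2 := by
    intro y hy
    have := hcov hy
    simp only [mem_iUnion, exists_prop] at this ⊢
    obtain ⟨x, hx, hxy⟩ := this
    exact ⟨p x, Finset.mem_image_of_mem _ hx, hxy⟩
  have hdisj : Set.Pairwise (↑T : Set (ℝ × ℝ)) (Function.onFun Disjoint fun q => Ioo q.1 q.2) := by
    intro q hq r hr hne
    rw [Function.onFun, Set.disjoint_left]
    intro y hyq hyr
    have h1 := hTp q hq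
    have h2 := hTp r hr
    exact hne (comp_unique h1.2.1 h2.2.1 h1.2.2.1 h1.2.2.2 h2.2.2.1 h2.2.2.2 hyq hyr)
  have hdv : ∀ x, x ∉ ⋃ q ∈ T, Ioo q.1 q.2 → deriv v x = 0 := by
    intro x hx
    by_contra h
    exact hx (hcov' (support_deriv_subset h))
  have hv0 : ∀ x, x ∉ ⋃ q ∈ T, Ioo q.1 q.2 → v x = 0 := by
    intro x hx
    exact image_eq_zero_of_notMem_tsupport (fun h => hx (hcov' h))
  have hvc : Continuous v := hv.continuous
  have hdc : Continuous (deriv v) := hv.continuous_deriv (by norm_num)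
  have e1 : ∫ x, v x ^ 2 = ∑ q ∈ T, ∫ x in q.1..q.2, v x ^ 2 := by
    rw [← setIntegral_eq_integral_of_forall_compl_eq_zero (s := ⋃ q ∈ T, Ioo q.1 q.2)
      (fun x hx => by rw [hv0 x hx]; simp)]
    rw [integral_biUnion_finset T (fun q _ => measurableSet_Ioo) hdisj]
    · refine Finset.sum_congr rfl fun q hq => ?_
      rw [intervalIntegral.integral_of_le (hTp q hq).1.le, integral_Ioc_eq_integral_Ioo]
    · intro q _
      exact ((hvc.pow 2).integrableOn_Icc).mono_set Ioo_subset_Icc_self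
  have e2 : ∫ x, deriv v x ^ 2 = ∑ q ∈ T, ∫ x in q.1..q.2, deriv v x ^ 2 := by
    rw [← setIntegral_eq_integral_of_forall_compl_eq_zero (s := ⋃ q ∈ T, Ioo q.1 q.2)
      (fun x hx => by rw [hdv x hx]; simp)]
    rw [integral_biUnion_finset T (fun q _ => measurableSet_Ioo) hdisj]
    · refine Finset.sum_congr rfl fun q hq => ?_
      rw [intervalIntegral.integral_of_le (hTp q hq).1.le, integral_Ioc_eq_integral_Ioo]
    · intro q _
      exact ((hdc.pow 2).integrableOn_Icc).mono_set Ioo_subset_Icc_self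
  rw [e1, e2, Finset.mul_sum]
  refine Finset.sum_le_sum fun q hq => ?_
  obtain ⟨h1, h2, h3, h4⟩ := hTp q hq
  have hz1 : v q.1 = 0 := image_eq_zero_of_notMem_tsupport (fun h => h3 (hs h))
  have hz2 : v q.2 = 0 := image_eq_zero_of_notMem_tsupport (fun h => h4 (hs h))
  refine le_trans ?_ (wirtinger hv h1 hz1 hz2)
  apply mul_le_mul_of_nonneg_right
  · have h5 : q.2 - q.1 ≤ l := hO _ _ h2 h1
    have h6 : 0 < q.2 - q.1 := by linarith
    have : Real.pi / l ≤ Real.pi / (q.2 - q.1) := div_le_div_of_nonneg_left Real.pi_pos.le h6 h5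
    exact pow_le_pow_left₀ (div_nonneg Real.pi_pos.le hl.le) this 2
  · exact intervalIntegral.integral_nonneg h1.le (fun x _ => sq_nonneg _)

end Pool.Agent.Helper79.FKD
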