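import Pool.Agent.Helper71.FK.Defs
import Pool.Agent.Helper79.FKD.Open1

/-! Transport between `ℝ` and `E 1`. -/

open MeasureTheory Metric Set Filter Topology
open scoped ENNReal ContDiff

namespace Pool.Agent.Helper79.FKD

open Pool.Agent.Helper71.FK (Tst dir E om)

/-- the isometry between the line and `E 1` -/
noncomputable def e : ℝ ≃ₗᵢ[ℝ] E 1 := (OrthonormalBasis.singleton (Fin 1) ℝ).repr

theorem int_e (f : E 1 → ℝ) : ∫ x, f x = ∫ t, f (e t) :=
  (e.measurePreserving.integral_comp e.toHomeomorph.measurableEmbedding f).symm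

theorem vol_e (S : Set (E 1)) : volume (e ⁻¹' S) = volume S :=
  e.measurePreserving.measure_preimage_emb e.toHomeomorph.measurableEmbedding S

theorem norm_grad_e {u : E 1 → ℝ} (hu : ContDiff ℝ 1 u) (t : ℝ) :
    ‖gradient u (e t)‖ = |deriv (fun t => u (e t)) t| := by
  have h1 : fderiv ℝ (fun t => u (e t)) t =
      (fderiv ℝ u (e t)).comp (e.toContinuousLinearEquiv : ℝ →L[ℝ] E 1) := by
    have hd : DifferentiableAt ℝ u (e t) := hu.differentiable (by norm_num) _
    have he : HasFDerivAt (fun t : ℝ => e t) (e.toContinuousLinearEquiv : ℝ →L[ℝ] E 1) t :=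
      e.toContinuousLinearEquiv.hasFDerivAt
    exact (hd.hasFDerivAt.comp t he).fderiv
  rw [← Real.norm_eq_abs, norm_deriv_eq_norm_fderiv, h1, gradient, LinearIsometryEquiv.norm_map]
  exact ((fderiv ℝ u (e t)).opNorm_comp_linearIsometryEquiv e).symm

theorem dir_e {u : E 1 → ℝ} (hu : ContDiff ℝ 1 u) :
    dir u = ∫ t, deriv (fun t => u (e t)) t ^ 2 := by
  rw [dir, int_e]
  refine integral_congr_ae (Eventually.of_forall fun t => ?_)
  simp only
  rw [norm_grad_e hu, sq_abs]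

theorem tsupport_e (u : E 1 → ℝ) : tsupport (fun t => u (e t)) = e ⁻¹' tsupport u := by
  exact tsupport_comp_eq_preimage u e.toHomeomorph

theorem tst_e {Ω : Set (E 1)} {u : E 1 → ℝ} (hu : Tst Ω u) :
    ContDiff ℝ 1 (fun t => u (e t)) ∧ HasCompactSupport (fun t => u (e t)) ∧
      tsupport (fun t => u (e t)) ⊆ e ⁻¹' Ω := by
  refine ⟨hu.smooth.comp e.toContinuousLinearEquiv.contDiff, ?_, ?_⟩
  · exact hu.cpt.comp_homeomorph e.toHomeomorph
  · rw [tsupport_e]
    exact preimage_mono hu.supp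

theorem tst_of {Ω : Set (E 1)} {v : ℝ → ℝ} (hv : ContDiff ℝ 1 v) (hc : HasCompactSupport v)
    (hs : tsupport v ⊆ e ⁻¹' Ω) : Tst Ω (fun x => v (e.symm x)) := by
  refine ⟨hv.comp e.symm.toContinuousLinearEquiv.contDiff, ?_, ?_⟩
  · exact hc.comp_homeomorph e.symm.toHomeomorph
  · have : tsupport (fun x => v (e.symm x)) = e.symm ⁻¹' tsupport v :=
      tsupport_comp_eq_preimage v e.symm.toHomeomorph
    rw [this]
    intro x hx
    have := hs hx
    simpa using this

theorem preimage_ball (t r : ℝ) : e ⁻¹' ball (e t) r = ball t r := e.preimage_ball _ _ |>.trans (by simp)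

theorem vol_ball (x : E 1) (r : ℝ) : volume (ball x r) = ENNReal.ofReal (2 * r) := by
  rw [← vol_e]
  obtain ⟨t, rfl⟩ := e.surjective x
  rw [preimage_ball, Real.volume_ball]

/-- Wirtinger inequality on open sets of `E 1` -/
theorem wirt_E {Ω : Set (E 1)} (ho : IsOpen Ω) (hf : volume Ω < ⊤) {l : ℝ} (hl : 0 < l)
    (hO : ∀ a b : ℝ, Ioo a b ⊆ e ⁻¹' Ω → a < b → b - a ≤ l) {u : E 1 → ℝ} (hu : Tst Ω u) :
    (Real.pi / l) ^ 2 * (∫ x, u x ^ 2) ≤ dir u := by
  obtain ⟨h1, h2, h3⟩ := tst_e hu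
  rw [dir_e hu.smooth, int_e]
  exact wirt_open (ho.preimage e.continuous) (by rw [vol_e]; exact hf) hl hO h1 h2 h3

end Pool.Agent.Helper79.FKD
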