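import Pool.Agent.Helper71.FK.Lam
import Pool.Agent.Helper79.FKD.Tr1
import Pool.Agent.Helper79.FKD.Test1

/-! The optimal constant in dimension one. -/

open MeasureTheory Metric Set Filter Topology
open scoped ENNReal ContDiff

namespace Pool.Agent.Helper79.FKD

open Pool.Agent.Helper71.FK (Tst dir E om)
open Pool.Agent.Helper71.FKFinal

theorem istest_tst {N : ℕ} {Ω : Set (E N)} {u : E N → ℝ} (h : IsTest Ω u) : Tst Ω u :=
  ⟨h.1.of_le (by simp), h.2.1, h.2.2⟩

theorem le_lambda1_of {Ω : Set (E 1)} (ho : IsOpen Ω) (hne : Ω.Nonempty) (hf : volume Ω < ⊤)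
    {l : ℝ} (hl : 0 < l) (hO : ∀ a b : ℝ, Ioo a b ⊆ e ⁻¹' Ω → a < b → b - a ≤ l) :
    (Real.pi / l) ^ 2 ≤ lambda1 Ω :=
  le_lambda1 ho hne (fun _ hu => wirt_E ho hf hl hO (istest_tst hu))

theorem lambda1_one : lambda1 (ball (0 : E 1) 1) = Real.pi ^ 2 / 4 := by
  have hb : e ⁻¹' ball (0 : E 1) 1 = Ioo (-1) 1 := by
    have := preimage_ball 0 1
    rw [map_zero] at this
    rw [this, Real.ball_eq_Ioo]
    norm_num
  apply le_antisymm
  · have key : ∀ δ : ℝ, 0 < δ → lambda1 (ball (0 : E 1) 1) * (1 - 8 * δ) ≤ Real.pi ^ 2 / 4 := by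
      intro δ hd
      have ht : Tst (ball (0 : E 1) 1) (fun x => vv δ (e.symm x)) :=
        tst_of (vv_cd hd) vv_cpt (by rw [hb]; exact vv_supp' hd)
      have h1 := lambda1_mul_le isOpen_ball ht
      rw [dir_e ht.smooth, int_e] at h1
      simp only [LinearIsometryEquiv.symm_apply_apply] at h1
      have h2 := vv_dir hd
      have h3 := vv_int hd
      have h4 := lambda1_nonneg (ball (0 : E 1) 1)
      have h5 := mul_le_mul_of_nonneg_left h3 h4
      have h6 : (Real.pi / 2) ^ 2 = Real.pi ^ 2 / 4 := by ring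
      rw [h6] at h2
      exact h5.trans (h1.trans h2)
    have hlim : Tendsto (fun δ : ℝ => lambda1 (ball (0 : E 1) 1) * (1 - 8 * δ)) (𝓝[>] 0)
        (𝓝 (lambda1 (ball (0 : E 1) 1) * (1 - 8 * 0))) :=
      ((by fun_prop : Continuous fun δ : ℝ => lambda1 (ball (0 : E 1) 1) * (1 - 8 * δ)).tendsto
        0).mono_left nhdsWithin_le_nhds
    have := le_of_tendsto hlim (eventually_nhdsWithin_of_forall (fun δ hδ => key δ hδ))
    simpa using this
  · have h := le_lambda1_of (Ω := ball (0 : E 1) 1) isOpen_ball ⟨0, by simp⟩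
      (by rw [vol_ball]; exact ENNReal.ofReal_lt_top) (l := 2) (by norm_num) (by
        intro a b hab hlt
        rw [hb] at hab
        have := (Ioo_subset_Ioo_iff hlt).1 hab
        linarith [this.1, this.2])
    refine le_of_eq_of_le ?_ h
    ring

theorem lambda1_ball' (x : E 1) {r : ℝ} (hr : 0 < r) :
    lambda1 (ball x r) = Real.pi ^ 2 / (2 * r) ^ 2 := by
  rw [lambda1_ball x hr, lambda1_one]
  field_simp
  ring

theorem volume_real_e {Ω : Set (E 1)} : volume.real (e ⁻¹' Ω) = volume.real Ω := by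
  rw [measureReal_def, measureReal_def, vol_e]

theorem deficit_one {Ω : Set (E 1)} (h0 : 0 < volume.real Ω) :
    deficit Ω = volume.real Ω ^ 2 * lambda1 Ω - Real.pi ^ 2 := by
  have h1 : starRadius Ω = volume.real Ω / 2 := by
    rw [starRadius, measureReal_def (s := ball (0 : EuclideanSpace ℝ (Fin 1)) 1), vol_ball]
    norm_num
  rw [deficit, h1, lambda1_ball' _ (by positivity)]
  have h2 : (2 : ℝ) / ((1 : ℕ) : ℝ) = ((2 : ℕ) : ℝ) := by norm_num
  rw [h2, Real.rpow_natCast]
  field_simp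

theorem bdd_asym {N : ℕ} (Ω : Set (E N)) : BddBelow {t : ℝ | ∃ (x : E N) (r : ℝ), 0 < r ∧
    volume (ball x r) = volume Ω ∧
    t = volume.real (symmDiff Ω (ball x r)) / volume.real Ω} := by
  refine ⟨0, ?_⟩
  rintro t ⟨x, r, _, _, rfl⟩
  positivity

/-- an interval inside `Ω` bounds the asymmetry -/
theorem asym_le_comp {Ω : Set (E 1)} (h0 : 0 < volume Ω) (hf : volume Ω < ⊤)
    {a b : ℝ} (hab : a < b) (hs : Ioo a b ⊆ e ⁻¹' Ω) :
    b - a ≤ volume.real Ω * (1 - asym Ω / 2) := by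
  have hL : 0 < volume.real Ω := by
    rw [measureReal_def]; exact ENNReal.toReal_pos h0.ne' hf.ne
  set L := volume.real Ω with hLdef
  have hvI : volume.real (Ioo a b) = b - a := by
    rw [Real.volume_real_Ioo_of_le hab.le]
  have hbaL : b - a ≤ L := by
    rw [← hvI, hLdef, ← volume_real_e]
    exact measureReal_mono hs (by rw [vol_e]; exact hf.ne)
  set m := (a + b) / 2 with hm
  set B := ball (e m) (L / 2) with hB
  have hBL : volume B = volume Ω := by
    rw [hB, vol_ball, mul_div_cancel₀ _ (two_ne_zero), hLdef, measureReal_def,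
      ENNReal.ofReal_toReal hf.ne]
  have hBI : Ioo a b ⊆ e ⁻¹' B := by
    rw [hB, preimage_ball, Real.ball_eq_Ioo]
    apply Ioo_subset_Ioo <;> rw [hm] <;> linarith
  have hmem : volume.real (symmDiff Ω B) / L ∈ {t : ℝ | ∃ (x : E 1) (r : ℝ), 0 < r ∧
    volume (ball x r) = volume Ω ∧
    t = volume.real (symmDiff Ω (ball x r)) / volume.real Ω} :=
    ⟨e m, L / 2, by positivity, hBL, rfl⟩
  have h1 : asym Ω ≤ volume.real (symmDiff Ω B) / L := csInf_le (bdd_asym Ω) hmem
  have hfB : volume B ≠ ⊤ := by rw [hBL]; exact hf.ne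
  have hBr : volume.real B = L := by rw [measureReal_def, hBL, hLdef, measureReal_def]
  have hI1 : e '' (Ioo a b) ⊆ Ω := by
    rintro _ ⟨t, ht, rfl⟩; exact hs ht
  have hI2 : e '' (Ioo a b) ⊆ B := by
    rintro _ ⟨t, ht, rfl⟩; exact hBI ht
  have hIm : MeasurableSet (e '' (Ioo a b)) :=
    (e.toHomeomorph.isOpenMap _ isOpen_Ioo).measurableSet
  have hIv : volume.real (e '' (Ioo a b)) = b - a := by
    rw [← volume_real_e, preimage_image_eq _ e.injective, hvI]
  have h2 : volume.real (symmDiff Ω B) ≤ 2 * (L - (b - a)) := by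
    have h3 : symmDiff Ω B ⊆ (Ω \ e '' (Ioo a b)) ∪ (B \ e '' (Ioo a b)) := by
      rintro x (⟨hx1, hx2⟩ | ⟨hx1, hx2⟩)
      · exact Or.inl ⟨hx1, fun h => hx2 (hI2 h)⟩
      · exact Or.inr ⟨hx1, fun h => hx2 (hI1 h)⟩
    have hfin : volume ((Ω \ e '' (Ioo a b)) ∪ (B \ e '' (Ioo a b))) ≠ ⊤ :=
      measure_union_ne_top
        (measure_ne_top_of_subset sdiff_subset hf.ne) (measure_ne_top_of_subset sdiff_subset hfB)
    refine (measureReal_mono h3 hfin).trans ((measureReal_union_le _ _).trans ?_)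
    rw [measureReal_sdiff hI1 hIm hf.ne, measureReal_sdiff hI2 hIm hfB, hIv, hBr]
    linarith
  have h4 : asym Ω ≤ 2 * (L - (b - a)) / L :=
    h1.trans (div_le_div_of_nonneg_right h2 hL.le)
  rw [le_div_iff₀ hL] at h4
  linarith

/-- the golden inequality -/
theorem golden {x : ℝ} (hx : 0 < x) :
    Real.goldenRatio ^ 5 * (x ^ 2 * (1 - x)) ≤ 1 + x := by
  set s := Real.goldenRatio with hs
  have h1 : s ^ 2 = s + 1 := Real.goldenRatio_sq
  have h5 : s ^ 5 = 5 * s + 3 := by
    have : s ^ 5 = s * (s ^ 2) ^ 2 := by ring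
    rw [this, h1]
    have : s * (s + 1) ^ 2 = s * s ^ 2 + 2 * s ^ 2 + s := by ring
    rw [this, h1]
    have : s * (s + 1) + 2 * (s + 1) + s = s ^ 2 + 4 * s + 2 := by ring
    rw [this, h1]
    ring
  have hs1 : 3 / 2 < s := by
    have h5' : (2:ℝ) < Real.sqrt 5 := by
      rw [show (2:ℝ) = Real.sqrt 4 by rw [show (4:ℝ) = 2 ^ 2 by norm_num]; simp]
      exact Real.sqrt_lt_sqrt (by norm_num) (by norm_num)
    rw [hs, Real.goldenRatio]
    linarith
  rw [h5]
  have key : 1 + x - (5 * s + 3) * (x ^ 2 * (1 - x)) =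
      (5 * s + 3) * ((x - s + 1) ^ 2 * (x + 2 * s - 3)) := by
    linear_combination ((15 * (s - 1) - 1) * x - 10 * (s - 1) ^ 2 - (s - 1) - 1) * h1
  have : 0 ≤ (5 * s + 3) * ((x - s + 1) ^ 2 * (x + 2 * s - 3)) := by
    apply mul_nonneg (by linarith)
    exact mul_nonneg (sq_nonneg _) (by linarith)
  linarith

theorem lower {Ω : Set (E 1)} (ho : IsOpen Ω) (h0 : 0 < volume Ω) (hf : volume Ω < ⊤)
    (hA : 0 < asym Ω) :
    Real.pi ^ 2 * Real.goldenRatio ^ 5 / 4 ≤ deficit Ω / asym Ω ^ 2 := by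
  have hL : 0 < volume.real Ω := by
    rw [measureReal_def]; exact ENNReal.toReal_pos h0.ne' hf.ne
  have hne : Ω.Nonempty := by
    rw [nonempty_iff_ne_empty]
    rintro rfl
    simp at h0
  have hall : ∀ a b : ℝ, Ioo a b ⊆ e ⁻¹' Ω → a < b →
      b - a ≤ volume.real Ω * (1 - asym Ω / 2) := fun a b hs hab => asym_le_comp h0 hf hab hs
  set L := volume.real Ω with hLdef
  set x := 1 - asym Ω / 2 with hxdef
  have hx : 0 < x := by
    obtain ⟨y, hy⟩ := hne
    obtain ⟨p, h1, h2, h3, -⟩ := exists_comp (ho.preimage e.continuous)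
      (by rw [vol_e]; exact hf) (x := e.symm y) (by simpa using hy)
    have := hall _ _ h3 (h1.trans h2)
    have h4 : 0 < L * x := by linarith
    exact (pos_iff_pos_of_mul_pos h4).1 hL
  have hx1 : x < 1 := by rw [hxdef]; linarith
  have hlam := le_lambda1_of ho hne hf (mul_pos hL hx) hall
  have hAx : asym Ω = 2 * (1 - x) := by rw [hxdef]; ring
  rw [deficit_one hL, hAx, div_le_div_iff₀ (by norm_num) (by
    have : 0 < 1 - x := by linarith
    positivity)]
  have hg := golden hx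
  have h1 : Real.pi ^ 2 ≤ x ^ 2 * (L ^ 2 * lambda1 Ω) := by
    have h2 := mul_le_mul_of_nonneg_left hlam (by positivity : 0 ≤ (x * L) ^ 2)
    have h3 : (x * L) ^ 2 * (Real.pi / (L * x)) ^ 2 = Real.pi ^ 2 := by
      field_simp
    rw [h3] at h2
    linarith
  have hp : 0 < Real.pi ^ 2 := by positivity
  -- multiply by x ^ 2
  have h4 : x ^ 2 * (Real.pi ^ 2 * Real.goldenRatio ^ 5 * (2 * (1 - x)) ^ 2) ≤
      x ^ 2 * ((L ^ 2 * lambda1 Ω - Real.pi ^ 2) * 4) := by
    have h5 : x ^ 2 * (Real.pi ^ 2 * Real.goldenRatio ^ 5 * (2 * (1 - x)) ^ 2) =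
        4 * Real.pi ^ 2 * (1 - x) * (Real.goldenRatio ^ 5 * (x ^ 2 * (1 - x))) := by ring
    rw [h5]
    have h6 : 4 * Real.pi ^ 2 * (1 - x) * (Real.goldenRatio ^ 5 * (x ^ 2 * (1 - x))) ≤
        4 * Real.pi ^ 2 * (1 - x) * (1 + x) :=
      mul_le_mul_of_nonneg_left hg (by
        have : 0 < 1 - x := by linarith
        positivity)
    refine h6.trans ?_
    nlinarith
  exact le_of_mul_le_mul_left h4 (by positivity)

/-- the extremal set: two far intervals -/
noncomputable def Om (x : ℝ) : Set (E 1) :=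
  ball (e (x / 2)) (x / 2) ∪ ball (e (10 + (1 - x) / 2)) ((1 - x) / 2)

theorem Om_pre {x : ℝ} : e ⁻¹' Om x = Ioo 0 x ∪ Ioo 10 (11 - x) := by
  rw [Om, preimage_union, preimage_ball, preimage_ball, Real.ball_eq_Ioo, Real.ball_eq_Ioo]
  congr 2 <;> ring

theorem Om_open (x : ℝ) : IsOpen (Om x) := isOpen_ball.union isOpen_ball

theorem Om_vol {x : ℝ} (h0 : 0 < x) (h1 : x < 1) : volume (Om x) = 1 := by
  rw [← vol_e, Om_pre, measure_union _ measurableSet_Ioo, Real.volume_Ioo, Real.volume_Ioo,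
    ← ENNReal.ofReal_add (by linarith) (by linarith)]
  · ring_nf; simp
  · rw [Set.disjoint_left]
    intro y hy hy'
    linarith [hy.2, hy'.1]

theorem Om_asym {x : ℝ} (h0 : 1 / 2 ≤ x) (h1 : x < 1) : 2 * (1 - x) ≤ asym (Om x) := by
  have hv := Om_vol (by linarith) h1
  have hvr : volume.real (Om x) = 1 := by rw [measureReal_def, hv]; simp
  apply le_csInf
  · refine ⟨_, 0, 1 / 2, by norm_num, ?_, rfl⟩
    rw [vol_ball, hv]; norm_num
  · rintro t ⟨y, r, hr, hvol, rfl⟩
    obtain ⟨c, rfl⟩ := e.surjective y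
    have hfB : volume (ball (e c) r) ≠ ⊤ := by rw [hvol, hv]; simp
    have hfO : volume (Om x) ≠ ⊤ := by rw [hv]; simp
    have hr2 : r = 1 / 2 := by
      rw [hv, vol_ball] at hvol
      have : 2 * r = 1 := by
        have h := congrArg ENNReal.toReal hvol
        rwa [ENNReal.toReal_ofReal (by linarith), ENNReal.toReal_one] at h
      linarith
    have hBr : volume.real (ball (e c) r) = 1 := by rw [measureReal_def, hvol, hv]; simp
    have hint : volume.real (Om x ∩ ball (e c) r) ≤ x := by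
      rw [← volume_real_e, preimage_inter, Om_pre, preimage_ball, Real.ball_eq_Ioo, hr2]
      rcases le_total c 5 with h | h
      · have : (Ioo 0 x ∪ Ioo 10 (11 - x)) ∩ Ioo (c - 1 / 2) (c + 1 / 2) ⊆ Ioo 0 x := by
          rintro z ⟨hz | hz, hz'⟩
          · exact hz
          · exfalso
            linarith [hz.1, hz'.2]
        refine (measureReal_mono this (by simp)).trans ?_
        rw [Real.volume_real_Ioo_of_le (by linarith)]
        linarith
      · have : (Ioo 0 x ∪ Ioo 10 (11 - x)) ∩ Ioo (c - 1 / 2) (c + 1 / 2) ⊆ Ioo 10 (11 - x) := by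
          rintro z ⟨hz | hz, hz'⟩
          · exfalso
            linarith [hz.2, hz'.1]
          · exact hz
        refine (measureReal_mono this (by simp)).trans ?_
        rw [Real.volume_real_Ioo_of_le (by linarith)]
        linarith
    have hd1 : volume.real (Om x \ ball (e c) r) = 1 - volume.real (Om x ∩ ball (e c) r) := by
      have := measureReal_inter_add_sdiff (μ := volume) (s := Om x) (t := ball (e c) r)
        measurableSet_ball hfO
      linarith
    have hd2 : volume.real (ball (e c) r \ Om x) = 1 - volume.real (Om x ∩ ball (e c) r) := by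
      have := measureReal_inter_add_sdiff (μ := volume) (s := ball (e c) r) (t := Om x)
        (Om_open x).measurableSet hfB
      rw [inter_comm] at this
      linarith
    have hs : volume.real (symmDiff (Om x) (ball (e c) r)) =
        volume.real (Om x \ ball (e c) r) + volume.real (ball (e c) r \ Om x) := by
      rw [symmDiff_def]
      refine measureReal_union ?_ (isOpen_ball.measurableSet.diff (Om_open x).measurableSet)
        (measure_ne_top_of_subset sdiff_subset hfO) (measure_ne_top_of_subset sdiff_subset hfB)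
      rw [Set.disjoint_left]
      rintro z ⟨hz1, hz2⟩ ⟨hz3, hz4⟩
      exact hz2 hz3
    rw [hs, hd1, hd2, hvr]
    linarith

end Pool.Agent.Helper79.FKD

namespace Pool.Agent.Helper71.FKFinal

open Pool.Agent.Helper71.FK (Tst dir E om)
open Pool.Agent.Helper79.FKD

/-- the optimal constant in dimension one -/
theorem gammaStar_one : gammaStar 1 = Real.pi ^ 2 * Real.goldenRatio ^ 5 / 4 := by
  obtain ⟨s, hs⟩ : ∃ s, s = Real.goldenRatio := ⟨_, rfl⟩
  rw [← hs]
  have hsq : s ^ 2 = s + 1 := by rw [hs]; exact Real.goldenRatio_sq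
  have hs1 : 3 / 2 < s := by
    have h5' : (2:ℝ) < Real.sqrt 5 := by
      rw [show (2:ℝ) = Real.sqrt 4 by rw [show (4:ℝ) = 2 ^ 2 by norm_num]; simp]
      exact Real.sqrt_lt_sqrt (by norm_num) (by norm_num)
    rw [hs, Real.goldenRatio]
    linarith
  have hs2 : s < 2 := by rw [hs]; exact Real.goldenRatio_lt_two
  have hlow : ∀ q ∈ {q : ℝ | ∃ Ω : Set (E 1), IsOpen Ω ∧ 0 < volume Ω ∧ volume Ω < ⊤ ∧
      0 < asym Ω ∧ q = deficit Ω / asym Ω ^ 2}, Real.pi ^ 2 * s ^ 5 / 4 ≤ q := by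
    rintro q ⟨Ω, ho, h0, hf, hA, rfl⟩
    rw [hs]
    exact lower ho h0 hf hA
  obtain ⟨x, hx⟩ : ∃ x, x = s - 1 := ⟨_, rfl⟩
  have hx2 : 1 / 2 < x := by rw [hx]; linarith
  have hx1 : x < 1 := by rw [hx]; linarith
  have hv := Om_vol (x := x) (by linarith) hx1
  have hvr : volume.real (Om x) = 1 := by rw [measureReal_def, hv]; simp
  have hAs := Om_asym hx2.le hx1
  have hApos : 0 < asym (Om x) := lt_of_lt_of_le (by linarith) hAs
  have hmem : deficit (Om x) / asym (Om x) ^ 2 ∈ {q : ℝ | ∃ Ω : Set (E 1), IsOpen Ω ∧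
      0 < volume Ω ∧ volume Ω < ⊤ ∧ 0 < asym Ω ∧ q = deficit Ω / asym Ω ^ 2} :=
    ⟨Om x, Om_open x, by rw [hv]; norm_num, by rw [hv]; simp, hApos, rfl⟩
  apply le_antisymm
  · refine (csInf_le ⟨_, hlow⟩ hmem).trans ?_
    have h1 : lambda1 (Om x) ≤ Real.pi ^ 2 / x ^ 2 := by
      have h2 := lambda1_anti isOpen_ball
        (nonempty_ball.2 (by linarith : 0 < x / 2))
        (subset_union_left : ball (e (x / 2)) (x / 2) ⊆ Om x)
      rw [lambda1_ball' _ (by linarith)] at h2
      rwa [mul_div_cancel₀ _ (two_ne_zero)] at h2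
    have hinv : Real.pi ^ 2 / x ^ 2 - Real.pi ^ 2 = Real.pi ^ 2 * s := by
      have hx0 : x ≠ 0 := by linarith
      have h1' : x * s = 1 := by rw [hx]; linear_combination hsq
      have h2' : Real.pi ^ 2 / x ^ 2 = Real.pi ^ 2 * s ^ 2 := by
        rw [div_eq_iff (pow_ne_zero 2 hx0)]
        linear_combination (-Real.pi ^ 2 * (x * s + 1)) * h1'
      rw [h2', hsq]
      ring
    rw [deficit_one (by rw [hvr]; norm_num), hvr]
    have h3 : (1 : ℝ) ^ 2 * lambda1 (Om x) - Real.pi ^ 2 ≤ Real.pi ^ 2 * s := by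
      rw [← hinv]; linarith
    refine (div_le_div₀ (by positivity) h3 (by
      have : 0 < 2 * (1 - x) := by linarith
      positivity) (pow_le_pow_left₀ (by linarith) hAs 2)).trans ?_
    rw [div_le_div_iff₀ (by
      have : 0 < 2 * (1 - x) := by linarith
      positivity) (by norm_num)]
    apply le_of_eq
    have h4 : s ^ 5 * (1 - x) ^ 2 = s := by
      have h5 : s ^ 2 * (1 - x) = 1 := by
        rw [hx]; linear_combination (1 - s) * hsq
      calc s ^ 5 * (1 - x) ^ 2 = s * (s ^ 2 * (1 - x)) ^ 2 := by ring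
        _ = s := by rw [h5]; ring
    linear_combination (-4 * Real.pi ^ 2) * h4
  · exact le_csInf ⟨_, hmem⟩ hlow

end Pool.Agent.Helper71.FKFinal
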